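import Mathlib
import Pool.Agent.K1H92.LD.Sys

set_option autoImplicit false

/-!
# Decimal repunits and the last decimal digits: error term and sets of lengths

For a sequence `d 0, d 1, d 2, ...` of decimal digits and a prime `p` let `W d p` be the `p`-rough part (the
product, with multiplicity, of the prime factors larger than `p`) of the integer
`d 0 + 10 d 1 + ... + 10 ^ (p - 1) d (p - 1)` with the last `p` digits `d (p - 1) ... d 1 d 0`. For the constant
sequence `1, 1, 1, ...` this is the repunit `R_p` itself, for every prime `p ≠ 3`. For a set `S` of lengths let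
`M S d n` be the number of the primes `p ≤ n` in `S` with `W d p` prime, and let `V S n` be the sum of
`log p / p` over the primes `p ≤ n` in `S`. We prove that for almost every sequence of digits (independent,
uniformly distributed) with `d 0 = 1, 3, 7` or `9` the number of primes `p ≤ n` with `W d p` prime is
`(e ^ γ / log 10) log n + O((log n) ^ (1/2) (log log n) ^ (5/2))`, that for every set `S` and almost every such
sequence there are infinitely many such `p` in `S` if and only if `V S n` is unbounded, and that in this case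
`M S d n = (e ^ γ / log 10) V S n + O((V L) ^ (1/2) (log (V L)) ^ 2)` with `V = V S n` and `L = log log n`.
-/

namespace Pool.Agent.Results.MP_adea1b_nt.LastDigits

open Filter Topology MeasureTheory Asymptotics

/-- The product, with multiplicity, of the prime factors of `m` that are larger than `p`. -/
def roughPart (p m : ℕ) : ℕ := (m.primeFactorsList.filter (fun r => p < r)).prod

/-- The `p`-rough part of the integer with the last `p` decimal digits `d (p - 1) ... d 1 d 0`. -/
def W (d : ℕ → Fin 10) (p : ℕ) : ℕ := roughPart p (∑ i ∈ Finset.range p, (d i : ℕ) * 10 ^ i)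

open Classical in
/-- The number of primes `p ≤ n` in the set `S` for which `W d p` is prime. -/
noncomputable def M (S : Set ℕ) (d : ℕ → Fin 10) (n : ℕ) : ℕ :=
  ((Finset.range (n + 1)).filter (fun p => p.Prime ∧ p ∈ S ∧ (W d p).Prime)).card

open Classical in
/-- The sum of `log p / p` over the primes `p ≤ n` in the set `S`. -/
noncomputable def V (S : Set ℕ) (n : ℕ) : ℝ :=
  ∑ p ∈ (Finset.range (n + 1)).filter (fun p => p.Prime ∧ p ∈ S), Real.log p / p

/-- Independent and uniformly distributed decimal digits. -/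
noncomputable def digits : Measure (ℕ → Fin 10) :=
  Measure.infinitePi (fun _ : ℕ => ProbabilityTheory.uniformOn (Set.univ : Set (Fin 10)))

lemma V_eq (S : Set ℕ) (n : ℕ) : V S n = Pool.Agent.TH888.R.VS S n := by
  classical
  unfold V Pool.Agent.TH888.R.VS
  rw [Finset.sum_filter]
  refine Finset.sum_congr rfl fun p _ => ?_
  by_cases h : p.Prime ∧ p ∈ S
  · rw [if_pos h, if_pos ⟨h.2, h.1⟩]
    rfl
  · rw [if_neg h, if_neg fun h1 => h ⟨h1.2, h1.1⟩]

lemma W_special {p : ℕ} (hp : p.Prime) (h3 : p ≠ 3) :
    W (fun _ => 1) p = ∑ i ∈ Finset.range p, 10 ^ i := by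
  have h := Pool.Agent.W66L.rough_repunit (b := 10) (by norm_num) hp (by
    intro h
    have h2 : p ∣ 3 := by
      have : p ∣ 3 ^ 2 := by simpa using h
      exact hp.dvd_of_dvd_pow this
    exact h3 ((Nat.prime_dvd_prime_iff_eq hp Nat.prime_three).1 h2))
  have e : (∑ i ∈ Finset.range p, (((1 : Fin 10)) : ℕ) * 10 ^ i) = ∑ i ∈ Finset.range p, 10 ^ i := by
    refine Finset.sum_congr rfl fun i _ => ?_
    have : (((1 : Fin 10)) : ℕ) = 1 := rfl
    rw [this, one_mul]
  unfold W
  rw [e]
  exact h

lemma M_eq (S : Set ℕ) (d : ℕ → Fin 10) (n : ℕ) :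
    M S d n = Pool.Agent.TH888.R.cS S (fun p => Pool.Agent.W66L.dsum 10 p d) n := by
  classical
  unfold M Pool.Agent.TH888.R.cS
  rfl

lemma first_digit (d : ℕ → Fin 10) : Pool.Agent.W66L.dsum 10 1 d = (d 0 : ℕ) := by
  unfold Pool.Agent.W66L.dsum
  simp

/-- The values at the sequence `1, 1, 1, ...` are the repunits, and for almost every sequence of digits the law
holds with a square root error term; for every set of primes the number of prime values is finite or infinite
according to the weight of the set, and in the second case it obeys the corresponding law. -/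
theorem result :
    (∀ p : ℕ, p.Prime → p ≠ 3 → W (fun _ => 1) p = ∑ i ∈ Finset.range p, 10 ^ i) ∧
    (∀ᵐ d : ℕ → Fin 10 ∂digits, (d 0 : ℕ).Coprime 10 →
      (fun n : ℕ => (M Set.univ d n : ℝ) -
        Real.exp Real.eulerMascheroniConstant / Real.log 10 * Real.log n) =O[atTop]
      (fun n : ℕ => Real.sqrt (Real.log n) * (Real.log (Real.log n)) ^ ((5 : ℝ) / 2))) ∧
    (∀ S : Set ℕ, Tendsto (V S) atTop atTop → ∀ᵐ d : ℕ → Fin 10 ∂digits, (d 0 : ℕ).Coprime 10 →
      (fun n : ℕ => (M S d n : ℝ) -
        Real.exp Real.eulerMascheroniConstant / Real.log 10 * V S n) =O[atTop]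
      (fun n : ℕ => Real.sqrt (V S n * Real.log (Real.log n)) *
        (Real.log (V S n * Real.log (Real.log n))) ^ 2)) ∧
    (∀ S : Set ℕ, ∀ᵐ d : ℕ → Fin 10 ∂digits, (d 0 : ℕ).Coprime 10 →
      ({p : ℕ | p.Prime ∧ p ∈ S ∧ (W d p).Prime}.Infinite ↔ Tendsto (V S) atTop atTop)) := by
  have hV : ∀ S, V S = Pool.Agent.TH888.R.VS S := fun S => funext fun n => V_eq S n
  have hpt : ∀ S : Set ℕ, ∀ᵐ d : ℕ → Fin 10 ∂digits, (d 0 : ℕ).Coprime 10 → Pool.Agent.TH888.R.Pt
      (fun p => Pool.Agent.W66L.dsum 10 p d)
      (Real.exp Real.eulerMascheroniConstant / Real.log 10) S := by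
    intro S
    have h := Pool.Agent.K1H92.LD.pt_all (b := 10) (by norm_num) (Pool.Agent.W66L.full_digits 10) S
    simp only [first_digit, Nat.cast_ofNat] at h
    exact h
  refine ⟨fun p hp h3 => W_special hp h3, ?_, fun S hS => ?_, fun S => ?_⟩
  · filter_upwards [hpt Set.univ] with d hd h0
    obtain ⟨B, hB, h⟩ := (hd h0).law Pool.Agent.TH888.R.VS_univ_tendsto
    simp only [M_eq]
    exact Pool.Agent.TH888.R.bigO_all hB h
  · rw [hV] at hS ⊢
    filter_upwards [hpt S] with d hd h0
    obtain ⟨B, hB, h⟩ := (hd h0).law hS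
    simp only [M_eq]
    exact Pool.Agent.TH888.R.bigO_set hB hS h
  · rw [hV]
    filter_upwards [hpt S] with d hd h0
    have hset : {p : ℕ | p.Prime ∧ p ∈ S ∧ (W d p).Prime} =
        {p : ℕ | p.Prime ∧ p ∈ S ∧ (Pool.Agent.H305R2.roughPart p (Pool.Agent.W66L.dsum 10 p d)).Prime} := rfl
    rw [hset]
    constructor
    · intro hi
      by_contra hn
      exact hi ((hd h0).fin hn)
    · exact (hd h0).inf

end Pool.Agent.Results.MP_adea1b_nt.LastDigits
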